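import Pool.Agent.H43.ZCover

set_option autoImplicit false
open MeasureTheory Filter Pool.Agent.H43.Harm Pool.Agent.H45.Chain

namespace Pool.Agent.Results.MP_09df17_pr.Counterexample

open Pool.Agent.H43.ZCover in
/-- A free action `T` of the integers on a connected locally finite graph with Liouville
quotient and a connected fundamental domain all of whose translates are visited infinitely
often, while the graph itself is not Liouville. -/
theorem result :
    ∃ (G : SimpleGraph (Bool × ℕ × ℤ)) (_ : G.LocallyFinite)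
      (T : ℤ → Bool × ℕ × ℤ → Bool × ℕ × ℤ) (D : Set (Bool × ℕ × ℤ)),
      G.Connected ∧ (∀ x, T 0 x = x) ∧ (∀ k l x, T (k + l) x = T k (T l x)) ∧
      (∀ k x y, G.Adj (T k x) (T k y) ↔ G.Adj x y) ∧ (∀ k x, k ≠ 0 → T k x ≠ x) ∧
      (∀ f : Bool × ℕ × ℤ → ℝ, (∀ k x, f (T k x) = f x) → (∃ C, ∀ x, |f x| ≤ C) →
        IsHarmonic G f → ∀ x y, f x = f y) ∧
      (∀ x, ∃! d, d ∈ D ∧ ∃ k, T k d = x) ∧ (G.induce D).Connected ∧
      (∀ v, ∀ᵐ ω ∂pathLaw (srw G) v, ∀ k : ℤ, ∃ᶠ t in atTop, ω t ∈ T k '' D) ∧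
      ∃ f : Bool × ℕ × ℤ → ℝ, (∃ C, ∀ x, |f x| ≤ C) ∧ IsHarmonic G f ∧ ∃ x y, f x ≠ f y :=
  ⟨G, GLF, T, D, conn, fun x => by simp [T], fun k l x => by simp [T]; ring, T_adj,
    fun k x hk h => hk (by simpa [T] using congrArg (fun y : V => y.2.2) h),
    fun f h _ hf => quotient_liouville f h hf, D_fund, D_conn, visits,
    F, ⟨_, F_bdd⟩, F_harm, _, _, F_ne⟩

end Pool.Agent.Results.MP_09df17_pr.Counterexample
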